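import Pool.Agent.X333.MS.Fin

/-! Mumford's problem on tensor differentials for projective varieties given by nested sums of high
powers of monomials. -/

set_option autoImplicit false

open Pool.Agent.W602.GT Pool.Agent.TH710.ND Pool.Agent.TH710.SP Pool.Agent.TH710.WH
  Pool.Agent.X333.MS

namespace Pool.Agent.Results.MP_4329d7_ag.NestedMonomialTensors

/-- Let `V` be an irreducible component, of dimension `w`, of a projective variety in `P^n` over an
algebraically closed field `k` of characteristic zero, given by forms which are nested sums of
powers of monomials: at most `h + 1` levels, at most `s` summands at each of them, all exponents at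
least `N ≥ (n + 1) (h + 1) (2 s + 1) ^ 5`. Let `K` be its function field. The following are
equivalent: the smooth projective models of `V` have no tensor differentials of degree `1, ..., B`,
for the explicit bound `B = n (n + 1) (h + 1) (2 s + 1) ^ 5`; they have no tensor differentials of
positive degree; they are rationally connected; `V` is the closure of an orbit of a torus of
diagonal matrices. -/
theorem result {k : Type} [Field k] [IsAlgClosed k] [CharZero k] {n : ℕ} (hn : 1 ≤ n) {ι : Type}
    {F : ι → MvPolynomial (Fin (n + 1)) k} {s N h : ℕ}
    (hF : ∀ e, IsForm (F e) ∧ NestedIn IsMono s N h (F e))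
    (hN : (n + 1) * ((h + 1) * (2 * s + 1) ^ 5) ≤ N) {K : Type} [Field K] [Algebra k K] {w : ℕ}
    {y : Fin (n + 1) → K} (hy : SubVarU ∅ F K w y) (hcomp : IsComponentU ∅ F y) :
    [NoTensors k K w (n * ((n + 1) * ((h + 1) * (2 * s + 1) ^ 5))), ∀ B, NoTensors k K w B,
      RationallyConnected k y, TorusOrbit k w y].TFAE := by
  have hM := seven hn hF hN hy hcomp
  tfae_have 1 ↔ 2 := hM.out 5 6
  tfae_have 1 ↔ 3 := hM.out 5 3
  tfae_have 1 ↔ 4 := hM.out 5 0
  tfae_finish

end Pool.Agent.Results.MP_4329d7_ag.NestedMonomialTensors
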