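import Pool.Agent.X180.OD.Tens

/-!
# Tensor differentials from towers of orbifold fibrations

Let `X` be a smooth projective variety, and let

  `X ⇢ W_l ⇢ ... ⇢ W_1 ⇢ W_0 = (a point)`, `dim W_l ≥ 1`,

be dominant rational maps (`dim X - dim W_l ≥ 0` and the fibres of `X ⇢ W_l` are arbitrary). Suppose
that for each `i < l` one of the following holds, where `e_i = dim W_{i+1} - dim W_i`:

* (constant) the fibres of `W_{i+1}` over `W_i`, *with the multiplicities of the fibres of `X` over
  `W_{i+1}`*, correspond to one orbifold `V_i` of dimension `e_i`: there are a variety `X'` with a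
  generically finite map `X' ⇢ X` (ramified anywhere) and a rational map `X' ⇢ V_i` which is constant
  on the fibres of `X' ⇢ W_{i+1}`, and dominant on the fibres of `X' ⇢ W_i`; `a (p)` is a nonnegative
  function (the log discrepancy of an orbifold divisor on `V_i`) of the places `p` in the image of the
  prime divisors of `X`, and there are pluricanonical forms on `V_i`, of some degree `m`, with poles of
  order at most `m (1 - a (p))` at these `p`, with `λ_i ≥ 0` algebraically independent ratios; and if
  `Q` is a place of the function field of `X'` over a prime divisor `P` of `X` which dominates `W_i`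
  but not `W_{i+1}`, with ramification index `ε`, then `ε ≤ ν a (p)` if `Q` lies over the place `p` of
  `V_i`, with ramification index `ν`, and `ε ≤ 1` if `Q` dominates `V_i`.
  For instance `i = 0`, `X' = X`, `V_0 = W_1` and `a (p)` the inverse of the smallest multiplicity of
  `p` at the prime divisors of `X`: then this means that *the orbifold base of `X ⇢ W_1` in the sense
  of Campana has Kodaira dimension at least `λ_0`*;
* (orbifold) the fibres of `W_{i+1}` over `W_i`, with the multiplicities of the fibres of `X` over
  `W_{i+1}`, correspond to moving log canonical arrangements: there is a variety `X'` with a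
  generically finite map `X' ⇢ X` and a rational map over `W_i` of `X'` to a relative product of
  projective spaces `P^{r_1} × ... × P^{r_c}`, `r_j ≥ 1`, whose fibres are, up to finite maps, the
  fibres of `X' ⇢ W_{i+1}`; in each `P^{r_j}` there are any hyperplanes `A j k = 0`, in any position,
  which move with the point of a variety finite over `W_i`, with weights `w j k ≥ 0`, such that the
  arrangement is log canonical (the sum of the weights of hyperplanes with a common point is at most
  the codimension of their intersection) and `∑ k, w j k ≥ r_j + 1`. If `Q` is a place of the function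
  field of `X'` over a prime divisor `P` of `X` which dominates `W_i` but not `W_{i+1}`, with
  ramification index `ε`, and `e j k` are the multiplicities of the hyperplanes at `Q`, not all zero,
  then `ε ≤ ∑ (mx_j - ∑ w j k e j k)`, where `mx_j` is the greatest sum of `r_j + 1` of the `e j k`
  whose hyperplanes have no common point (`ε ≤ 1`, if all `e j k` are zero). Let `λ_i` be the sum of
  the `r_j` with `∑ k, w j k > r_j + 1`.

The theorem: there is `M > 0` and a nonzero holomorphic tensor differential `ω` on `X` of degree
`M dim W_l`, and there are `λ_0 + ... + λ_{l-1}` algebraically independent functions `f` such that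
`f ω` is holomorphic. (They are sections of the `M`-th power of the line subsheaf of `Ω^{dim W_l}` which
is given by `W_l`.) In particular `H⁰(X, (Ω¹)^{⊗ m}) ≠ 0` for `m = M dim W_l ≥ 1`, so `X` is not
rationally connected, and Mumford's problem Q1 has a positive answer for `X`. In other words: if `X`
has no tensor differentials then for all towers of rational maps `X ⇢ W_l ⇢ ... ⇢ W_0` the multiplicities
are too small for all orbifolds and all log canonical arrangements.

The function-field language of the starting repository is used. `K` is the function field of `X`,
`E i` the one of `W_i`; the prime divisors of `X` are places `P` of `K`, `P.ord` is the order along `P`,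
and `X` is given by the set of its prime divisors. A tensor differential of degree `m` is a
`K`-multilinear function of `m` rational vector fields (derivations of `K`); it is holomorphic if its
values on vector fields which are regular at `P` are regular at `P`, for all prime divisors `P` of `X`.
Definitions: `Pool/Agent/X180/OD/Defs` (`IsTower`, `ConstantFibres`), `Pool/Agent/X180/OP/Defs`
(`OrbifoldFibres`).

Proof: the forms of the steps have coefficients which are algebraic over the function fields of the
`W_{i+1}`, and their norms are estimated at the prime divisors of `X` (`Pool.Agent.X180.OC.const_part`,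
`Pool.Agent.X180.Orb.lc_part`); they are multiplied along adapted regular vector fields
(`Pool.Agent.X180.OD.comp_part`).
-/

set_option autoImplicit false

open FF Pool.Agent.W602.GT Pool.Agent.X180.OD

namespace Pool.Agent.Results.MP_4329d7_ag.OrbifoldTowerTensors

/-- `ω` is a holomorphic tensor differential of degree `m` on `X`, a smooth projective variety of
dimension `n` which is given by the set of its prime divisors: a section of `(Ω¹) ^ ⊗ m`. -/
def IsHolomorphic {K : Type} [Field K] [Algebra ℂ K] (n : ℕ) (X : Set (Place ℂ K)) {m : ℕ}
    (ω : MultilinearMap K (fun _ : Fin m => Derivation ℂ K K) K) : Prop :=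
  ∀ P ∈ X, Divisorial n P → ∀ D : Fin m → Derivation ℂ K K, (∀ j, DerReg P (D j)) → P.Reg (ω D)

/-- `H⁰ (X, (Ω¹) ^ ⊗ m) = 0` for all `m ≥ 1`. -/
def NoTensors {K : Type} [Field K] [Algebra ℂ K] (n : ℕ) (X : Set (Place ℂ K)) : Prop :=
  ∀ m : ℕ, 1 ≤ m → ∀ ω : MultilinearMap K (fun _ : Fin m => Derivation ℂ K K) K,
    IsHolomorphic n X ω → ω = 0

/-- **Tensor differentials from towers.** Let `K` be the function field of a smooth projective variety
`X` of dimension `n`, and `X ⇢ W_l ⇢ ... ⇢ W_0` a tower over a point `W_0` with steps as in
`OrbifoldFibres` or as in `ConstantFibres` for the prime divisors of `X`, of log Kodaira dimensions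
`lam i ≥ 0`. (1) There are `M > 0`, a nonzero holomorphic tensor differential `ω` of degree
`M dim W_l`, and functions `f 0 = 1`, `f 1`, ..., such that all `f b • ω` are holomorphic, and
`f 1`, ... are `∑ i, lam i` algebraically independent functions. (2) If `dim W_l ≥ 1` then it is not
true that `H⁰ (X, (Ω¹) ^ ⊗ m) = 0` for all `m ≥ 1`. -/
theorem result (K : Type) [Field K] [Algebra ℂ K] (n l : ℕ) (hK : Algebra.trdeg ℂ K = n)
    (X : Set (Place ℂ K)) (E : Fin (l + 1) → IntermediateField ℂ K) (D : Fin (l + 1) → ℕ)
    (e lam : Fin l → ℕ) (hE0 : E 0 = ⊥) (hT : IsTower X (fun _ => 0) E D e lam) :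
    (∃ M : ℕ, 0 < M ∧ ∃ (ω : MultilinearMap K
        (fun _ : Fin (M * D (Fin.last l)) => Derivation ℂ K K) K)
      (f : Fin (∑ i, lam i + 1) → K), ω ≠ 0 ∧ f 0 = 1 ∧
      AlgebraicIndependent ℂ (fun i : Fin (∑ i, lam i) => f i.succ) ∧
      ∀ b, IsHolomorphic n X (f b • ω)) ∧
    (1 ≤ D (Fin.last l) → ¬ NoTensors n X) := by
  obtain ⟨M, hM, ω, f, hω, hf, hi, hr⟩ := tower_tens hK hE0 hT
  refine ⟨⟨M, hM, ω, f, hω, hf, hi, fun b P hP hPd G hG => hr b P hP hPd G hG⟩,
    fun hD hno => hω (hno _ (Nat.mul_pos hM hD) ω fun P hP hPd G hG => ?_)⟩
  have h1 := hr 0 P hP hPd G hG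
  rwa [hf, one_mul] at h1

end Pool.Agent.Results.MP_4329d7_ag.OrbifoldTowerTensors
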