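import Mathlib
import Pool.Agent.X316.ZU.Acv
import Pool.Agent.TH710.WH.Conn3

/-!
MP_4329d7_ag, Q1: the Zariski closure of an entire curve which is algebraic over the Riemann zeta
function and its derivatives, or over the derivatives of the functions of any jointly universal
family, is unirational; a projective variety has a Zariski-dense entire curve of this kind if and
only if it is unirational. So it is rationally connected, and has no holomorphic tensor
differentials.
-/

set_option autoImplicit false

namespace Pool.Agent.Results.MP_4329d7_ag.ZetaAlgebraicCurves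

open MvPolynomial
open scoped LinearAlgebra.Projectivization
open Pool.Agent.TH143.EL (HolMap InV)
open Pool.Agent.TH143.GT (FunField)
open Pool.Agent.W602.GT (IsForm)
open Pool.Agent.TH8.TEN (HolTensor)
open Pool.Agent.TH8.UNI (Unirational)
open Pool.Agent.TH710.WH (RationallyConnected)
open Pool.Agent.Y377.IL (AlgebraicOver)
open Pool.Agent.X316.ZG (JointlyUniversal dring)

/-- The projective variety with the ideal `p` contains a Zariski-dense entire curve which is
algebraic over the ring of the polynomials in the functions `u j` and their derivatives. -/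
def HasAlgebraicCurve {N : ℕ} {ι : Type} (u : ι → ℂ → ℂ)
    (p : Ideal (MvPolynomial (Fin (N + 1)) ℂ)) : Prop :=
  ∃ f : ℂ → ℙ ℂ (Fin (N + 1) → ℂ), HolMap f ∧ AlgebraicOver (dring u) f ∧ (∀ z, InV p (f z)) ∧
    ∀ G : MvPolynomial (Fin (N + 1)) ℂ, IsForm G → (∀ z, eval (f z).rep G = 0) → G ∈ p

/-- (1) The Zariski closure of an entire curve in projective space which is algebraic over a jointly
universal family is the Zariski closure of the image of a rational map of an affine space, given by
polynomials `W 0, ..., W N`. (2) A projective variety has a Zariski-dense entire curve which is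
algebraic over the zeta function and its derivatives, or over some, or over each (nonempty) jointly
universal family, if and only if it is unirational; then it is rationally connected and its smooth
projective models have no holomorphic tensor differentials of positive degree. (3) The zeta function
is jointly universal. -/
theorem result :
    (∀ (ι : Type) (u : ι → ℂ → ℂ), JointlyUniversal u →
      ∀ (N : ℕ) (f : ℂ → ℙ ℂ (Fin (N + 1) → ℂ)), HolMap f → AlgebraicOver (dring u) f →
        ∃ (m : ℕ) (W : Fin (N + 1) → MvPolynomial (Fin m) ℂ),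
          ∀ G : MvPolynomial (Fin (N + 1)) ℂ, IsForm G →
            ((∀ z, eval (f z).rep G = 0) ↔ aeval W G = 0)) ∧
    (∀ (N : ℕ) (p : Ideal (MvPolynomial (Fin (N + 1)) ℂ)) (K : Type) [Field K] [Algebra ℂ K]
      (w : ℕ) (y : Fin (N + 1) → K), FunField p 1 K w y →
      List.TFAE [Unirational K,
        HasAlgebraicCurve (fun _ : Unit => riemannZeta) p,
        ∃ (ι : Type) (u : ι → ℂ → ℂ), JointlyUniversal u ∧ HasAlgebraicCurve u p,
        ∀ (ι : Type) (u : ι → ℂ → ℂ), Nonempty ι → JointlyUniversal u → HasAlgebraicCurve u p] ∧
      ((∃ (ι : Type) (u : ι → ℂ → ℂ), JointlyUniversal u ∧ HasAlgebraicCurve u p) →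
        RationallyConnected ℂ y ∧
        ∀ q : ℕ, 0 < q → ∀ θ : MultilinearMap K (fun _ : Fin q => Derivation ℂ K K) K,
          HolTensor w θ → θ = 0)) ∧
    JointlyUniversal fun _ : Unit => riemannZeta := by
  refine ⟨fun ι u hu N f hf ha => Pool.Agent.X316.ZU.closure_param hu hf ha,
    fun N p K _ _ w y hy => ?_, Pool.Agent.X316.ZG.zeta_universal⟩
  have h := Pool.Agent.X316.ZU.alg_tfae hy
  refine ⟨h, fun h1 => ?_⟩
  have h2 := (h.out 0 2).2 h1
  refine ⟨?_, (Pool.Agent.X316.ZU.special_of_unirational hy h2).1⟩
  obtain ⟨m, ⟨φ⟩⟩ := h2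
  obtain ⟨W, hW⟩ := Pool.Agent.TH8.UNI.exists_param hy.sub.ne φ
  exact Pool.Agent.TH710.WH.connected_of_unirational ⟨m, W, hW⟩

end Pool.Agent.Results.MP_4329d7_ag.ZetaAlgebraicCurves
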